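import Mathlib
import Pool.Agent.Lib.MP_cd75ba_ag.Indep
import Pool.Agent.Lib.MP_cd75ba_ag.Identity

open scoped LinearAlgebra.Projectivization
open Polynomial Pool.Agent.Lib.MP_cd75ba_ag

namespace Pool.Agent.Results.MP_cd75ba_ag.ConicThreshold

/-- Complex projective five-space; the homogeneous coordinates `x 0, ..., x 5` are the
coordinates `x_1, ..., x_6` of the problem. -/
abbrev P5 : Type := ℙ ℂ (Fin 6 → ℂ)

/-- The form `F_d = x_1^d + x_2^d + x_3^d - x_4^d - x_5^d - x_6^d`. -/
def F (d : ℕ) (x : Fin 6 → ℂ) : ℂ :=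
  x 0 ^ d + x 1 ^ d + x 2 ^ d - x 3 ^ d - x 4 ^ d - x 5 ^ d

/-- The hypersurface `X_d = {F_d = 0}` in projective five-space. -/
def X (d : ℕ) : Set P5 := {p | F d p.rep = 0}

/-- `C` is a smooth plane conic in projective five-space: there are a plane `ℙ(W)`
(`W` a three-dimensional linear subspace of `ℂ^6`) and a nondegenerate quadratic form `Q` on `W`
such that `C` is the locus `Q = 0` in `ℙ(W)`. -/
def IsConic (C : Set P5) : Prop :=
  ∃ (W : Submodule ℂ (Fin 6 → ℂ)) (Q : QuadraticForm ℂ W),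
    Module.finrank ℂ W = 3 ∧
    (∀ x : W, (∀ y : W, QuadraticMap.polar Q x y = 0) → x = 0) ∧
    C = {p | ∃ h : p.rep ∈ W, Q ⟨p.rep, h⟩ = 0}

/-- `C` is degenerate: for some `i ≠ j` and `(a : b) ∈ ℙ^1` the linear form `a x_i - b x_j`
vanishes identically on `C`. -/
def IsDegenerate (C : Set P5) : Prop :=
  ∃ i j : Fin 6, i ≠ j ∧ ∃ a b : ℂ, ¬ (a = 0 ∧ b = 0) ∧ ∀ p ∈ C, a * p.rep i - b * p.rep j = 0

lemma F_smul (d : ℕ) (c : ℂ) (x : Fin 6 → ℂ) : F d (c • x) = c ^ d * F d x := by
  simp only [F, Pi.smul_apply, smul_eq_mul, mul_pow]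
  ring

lemma upper {d : ℕ} (hd : 15 ≤ d) (C : Set P5) (hC : IsConic C) (hCX : C ⊆ X d) :
    IsDegenerate C := by
  obtain ⟨W, Q, hW, hQ, rfl⟩ := hC
  have hsep : (QuadraticMap.associated (R := ℂ) Q).SeparatingLeft := by
    intro x hx
    apply hQ x
    intro y
    have h1 := hx y
    rw [QuadraticMap.associated_apply] at h1
    rw [QuadraticMap.polar]
    simpa using h1
  have hequiv : ∀ n, Module.finrank ℂ W = n →
      QuadraticMap.Equivalent Q (QuadraticMap.weightedSumSquares ℂ (1 : Fin n → ℂ)) := by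
    rintro n rfl
    exact Q.equivalent_weightedSumSquares_of_isAlgClosed hsep
  obtain ⟨e⟩ := hequiv 3 hW
  -- the parametrisation
  set v : ℂ → (Fin 3 → ℂ) := fun t => ![t ^ 2 - 1, 2 * t, Complex.I * (t ^ 2 + 1)] with hv
  have hv0 : ∀ t, v t ≠ 0 := by
    intro t h
    have h1 : 2 * t = 0 := congrFun h 1
    have h2 : t ^ 2 - 1 = 0 := congrFun h 0
    have h3 : t = 0 := by simpa using h1
    rw [h3] at h2
    norm_num at h2
  have hQv : ∀ t, Q (e.symm (v t)) = 0 := by
    intro t
    rw [QuadraticMap.IsometryEquiv.map_app]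
    simp only [QuadraticMap.weightedSumSquares_apply, Fin.sum_univ_three, hv, Pi.one_apply,
      one_smul, Matrix.cons_val]
    linear_combination ((t ^ 2 + 1) ^ 2) * Complex.I_sq
  have hne : ∀ t, ((e.symm (v t) : W) : Fin 6 → ℂ) ≠ 0 := by
    intro t h
    have h1 : (e.symm (v t) : W) = 0 := by
      apply Subtype.ext
      simpa using h
    have h2 : e (e.symm (v t)) = e 0 := by rw [h1]
    have h3 : e (e.symm (v t)) = v t := e.toLinearEquiv.apply_symm_apply (v t)
    have h4 : e 0 = 0 := e.toLinearEquiv.map_zero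
    rw [h3, h4] at h2
    exact hv0 t h2
  have hF : ∀ t, F d ((e.symm (v t) : W) : Fin 6 → ℂ) = 0 := by
    intro t
    obtain ⟨a, ha⟩ := Projectivization.exists_smul_eq_mk_rep ℂ _ (hne t)
    have hrep : (Projectivization.mk ℂ ((e.symm (v t) : W) : Fin 6 → ℂ) (hne t)).rep =
        (((a : ℂ) • (e.symm (v t) : W) : W) : Fin 6 → ℂ) := by
      rw [← ha]
      rfl
    have hmem : Projectivization.mk ℂ ((e.symm (v t) : W) : Fin 6 → ℂ) (hne t) ∈
        {p : P5 | ∃ h : p.rep ∈ W, Q ⟨p.rep, h⟩ = 0} := by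
      refine ⟨?_, ?_⟩
      · rw [hrep]
        exact ((a : ℂ) • (e.symm (v t) : W)).2
      · have h1 : Q ((a : ℂ) • (e.symm (v t) : W)) = 0 := by
          rw [QuadraticMap.map_smul, hQv t, smul_zero]
        convert h1
    have h2 := hCX hmem
    simp only [X, Set.mem_ofPred_eq] at h2
    rw [← ha] at h2
    have h3 : F d ((a : ℂ) • ((e.symm (v t) : W) : Fin 6 → ℂ)) = 0 := h2
    rw [F_smul] at h3
    rcases mul_eq_zero.mp h3 with h4 | h4
    · exact absurd ((pow_eq_zero_iff (n := d) (by omega)).mp h4) a.ne_zero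
    · exact h4
  -- the six quadratic polynomials
  set E : Fin 3 → Fin 6 → ℂ := fun k i =>
    ((e.symm (Pi.single k (1 : ℂ)) : W) : Fin 6 → ℂ) i with hE
  set f : Fin 6 → ℂ[X] := fun i => C (E 0 i + Complex.I * E 2 i) * Polynomial.X ^ 2
    + C (2 * E 1 i) * Polynomial.X + C (Complex.I * E 2 i - E 0 i) with hf
  have hdecomp : ∀ y : Fin 3 → ℂ, ∀ i, ((e.symm y : W) : Fin 6 → ℂ) i =
      y 0 * E 0 i + y 1 * E 1 i + y 2 * E 2 i := by
    intro y i
    have h1 : y = y 0 • (Pi.single 0 (1 : ℂ) : Fin 3 → ℂ) + y 1 • (Pi.single 1 (1 : ℂ))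
        + y 2 • (Pi.single 2 (1 : ℂ)) := by
      funext k
      fin_cases k <;> simp
    have h2 : e.symm y = y 0 • e.symm (Pi.single 0 (1 : ℂ) : Fin 3 → ℂ)
        + y 1 • e.symm (Pi.single 1 (1 : ℂ)) + y 2 • e.symm (Pi.single 2 (1 : ℂ)) := by
      conv_lhs => rw [h1]
      have h3 : ∀ z, e.symm z = e.toLinearEquiv.symm z := fun z => rfl
      simp only [h3, map_add, map_smul]
    rw [h2]
    simp [hE]
  have heval : ∀ i t, (f i).eval t = ((e.symm (v t) : W) : Fin 6 → ℂ) i := by
    intro i t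
    rw [hdecomp]
    simp only [hf, hv, eval_add, eval_mul, eval_C, eval_pow, eval_X, Matrix.cons_val]
    ring
  have hrel : f 0 ^ d + f 1 ^ d + f 2 ^ d - f 3 ^ d - f 4 ^ d - f 5 ^ d = 0 := by
    apply Polynomial.funext
    intro t
    have h1 := hF t
    simp only [F] at h1
    simp only [eval_add, eval_sub, eval_pow, heval, eval_zero]
    exact h1
  have hdeg : ∀ i, (f i).natDegree ≤ 2 := by
    intro i
    simp only [hf]
    compute_degree
  by_contra hnd
  have hnp : ∀ i j, i ≠ j → ∀ a b : ℂ, C a * f i = C b * f j → a = 0 ∧ b = 0 := by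
    intro i j hij a b hab
    by_contra hcon
    apply hnd
    refine ⟨i, j, hij, a, b, hcon, ?_⟩
    have hc2 := congrArg (fun r : ℂ[X] => r.coeff 2) hab
    have hc1 := congrArg (fun r : ℂ[X] => r.coeff 1) hab
    have hc0 := congrArg (fun r : ℂ[X] => r.coeff 0) hab
    simp only [hf, coeff_C_mul, coeff_add, coeff_X_pow, coeff_X, coeff_C] at hc0 hc1 hc2
    norm_num at hc0 hc1 hc2
    have h0 : a * E 0 i = b * E 0 j := by linear_combination (hc2 - hc0) / 2
    have h2 : a * E 2 i = b * E 2 j := by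
      have : Complex.I * (a * E 2 i - b * E 2 j) = 0 := by linear_combination (hc2 + hc0) / 2
      rcases mul_eq_zero.mp this with h | h
      · exact absurd h Complex.I_ne_zero
      · exact sub_eq_zero.mp h
    have h1 : a * E 1 i = b * E 1 j := by linear_combination hc1 / 2
    rintro p ⟨hp, -⟩
    have h3 := hdecomp (e ⟨p.rep, hp⟩)
    have h4 : (e.symm (e ⟨p.rep, hp⟩) : W) = ⟨p.rep, hp⟩ :=
      e.toLinearEquiv.symm_apply_apply _
    rw [h4] at h3
    have h5 := h3 i
    have h6 := h3 j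
    simp only at h5 h6
    rw [h5, h6]
    linear_combination (e ⟨p.rep, hp⟩ 0) * h0 + (e ⟨p.rep, hp⟩ 1) * h1
      + (e ⟨p.rep, hp⟩ 2) * h2
  have hind := indep_deg_le_two hd f hdeg hnp
  rw [Fintype.linearIndependent_iff] at hind
  have h1 := hind ![1, 1, 1, -1, -1, -1] (by
    simp only [Fin.sum_univ_six, Matrix.cons_val, one_smul, neg_smul]
    rw [← hrel]
    ring) 0
  simp at h1

/-- The linear parametrisation of the plane of the exceptional conic on `X_14`. -/
noncomputable def L (z ω s : ℂ) : (Fin 3 → ℂ) →ₗ[ℂ] (Fin 6 → ℂ) where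
  toFun y := ![y 0 + Complex.I * y 1 + y 2, z * y 0 + Complex.I * y 1 + z ^ 4 * y 2,
    z ^ 2 * y 0 + Complex.I * y 1 + z ^ 3 * y 2,
    ω * (z ^ 3 * y 0 + Complex.I * y 1 + z ^ 2 * y 2),
    ω * (z ^ 4 * y 0 + Complex.I * y 1 + z * y 2), s * y 1]
  map_add' := by
    intro x y
    funext i
    fin_cases i <;> simp <;> ring
  map_smul' := by
    intro c x
    funext i
    fin_cases i <;> simp <;> ring

/-- The quadratic form `y_0 y_2 - y_1^2`. -/
noncomputable def Q0 : QuadraticForm ℂ (Fin 3 → ℂ) :=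
  QuadraticMap.linMulLin (LinearMap.proj 0) (LinearMap.proj 2) -
    QuadraticMap.linMulLin (LinearMap.proj 1) (LinearMap.proj 1)

lemma Q0_apply (y : Fin 3 → ℂ) : Q0 y = y 0 * y 2 - y 1 * y 1 := by
  simp [Q0, QuadraticMap.linMulLin_apply]

lemma lower : ∃ C : Set P5, IsConic C ∧ C ⊆ X 14 ∧ ¬ IsDegenerate C := by
  obtain ⟨ω, hω⟩ := IsAlgClosed.exists_pow_nat_eq (-1 : ℂ) (n := 14) (by norm_num)
  obtain ⟨s, hs⟩ := IsAlgClosed.exists_pow_nat_eq (5 : ℂ) (n := 2) (by norm_num)
  have hprim := Complex.isPrimitiveRoot_exp 5 (by norm_num)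
  set z : ℂ := Complex.exp (2 * Real.pi * Complex.I / (5 : ℕ)) with hz
  have hz5 : z ^ 5 = 1 := hprim.pow_eq_one
  have hz1 : z ≠ 1 := hprim.ne_one (by norm_num)
  have hz0 : z ≠ 0 := by
    intro h
    rw [h] at hz5
    norm_num at hz5
  have hzsum : 1 + z + z ^ 2 + z ^ 3 + z ^ 4 = 0 := by
    have h1 : (z - 1) * (1 + z + z ^ 2 + z ^ 3 + z ^ 4) = 0 := by linear_combination hz5
    rcases mul_eq_zero.mp h1 with h | h
    · exact absurd (sub_eq_zero.mp h) hz1
    · exact h
  have hω0 : ω ≠ 0 := by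
    intro h
    rw [h] at hω
    norm_num at hω
  have hs0 : s ≠ 0 := by
    intro h
    rw [h] at hs
    norm_num at hs
  have hs14 : s ^ 14 = 5 ^ 7 := by
    have : s ^ 14 = (s ^ 2) ^ 7 := by ring
    rw [this, hs]
  have hLinj : Function.Injective (L z ω s) := by
    rw [← LinearMap.ker_eq_bot, LinearMap.ker_eq_bot']
    intro y hy
    have h5 : s * y 1 = 0 := congrFun hy 5
    have h0 : y 0 + Complex.I * y 1 + y 2 = 0 := congrFun hy 0
    have h1 : z * y 0 + Complex.I * y 1 + z ^ 4 * y 2 = 0 := congrFun hy 1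
    have hy1 : y 1 = 0 := by
      rcases mul_eq_zero.mp h5 with h | h
      · exact absurd h hs0
      · exact h
    rw [hy1] at h0 h1
    have h2 : y 0 = - y 2 := by linear_combination h0
    rw [h2] at h1
    have h3 : z * (z - 1) * (1 + z + z ^ 2) * y 2 = 0 := by linear_combination h1
    have h4 : (1 + z + z ^ 2) ≠ 0 := by
      intro h
      have h6 : z ^ 3 = 1 := by linear_combination (z - 1) * h
      have h7 : z ^ 2 = 1 := by
        have : z ^ 5 = z ^ 3 * z ^ 2 := by ring
        rw [this, h6, one_mul] at hz5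
        exact hz5
      have h8 : z = 1 := by
        have : z ^ 3 = z ^ 2 * z := by ring
        rw [this, h7, one_mul] at h6
        exact h6
      exact hz1 h8
    have h5' : y 2 = 0 := by
      rcases mul_eq_zero.mp h3 with h | h
      · exfalso
        rcases mul_eq_zero.mp h with h | h
        · rcases mul_eq_zero.mp h with h | h
          · exact hz0 h
          · exact hz1 (sub_eq_zero.mp h)
        · exact h4 h
      · exact h
    funext i
    fin_cases i
    · simp only [Fin.zero_eta, Pi.zero_apply]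
      rw [h2, h5', neg_zero]
    · exact hy1
    · exact h5'
  set W := LinearMap.range (L z ω s) with hW
  set e : (Fin 3 → ℂ) ≃ₗ[ℂ] W := LinearEquiv.ofInjective (L z ω s) hLinj with he
  set Q : QuadraticForm ℂ W := Q0.comp e.symm.toLinearMap with hQ
  have hQe : ∀ y, Q (e y) = y 0 * y 2 - y 1 * y 1 := by
    intro y
    rw [hQ, QuadraticMap.comp_apply, LinearEquiv.coe_coe, e.symm_apply_apply, Q0_apply]
  set C : Set P5 := {p | ∃ h : p.rep ∈ W, Q ⟨p.rep, h⟩ = 0} with hC
  have hrepQ : ∀ p ∈ C, ∃ y : Fin 3 → ℂ, L z ω s y = p.rep ∧ y 0 * y 2 = y 1 * y 1 := by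
    rintro p ⟨⟨y, hy⟩, hq⟩
    refine ⟨y, hy, ?_⟩
    have h1 : (⟨p.rep, ⟨y, hy⟩⟩ : W) = e y := Subtype.ext hy.symm
    rw [h1, hQe] at hq
    linear_combination hq
  refine ⟨C, ⟨W, Q, ?_, ?_, rfl⟩, ?_, ?_⟩
  · rw [← e.finrank_eq]
    simp
  · intro x hx
    obtain ⟨y, rfl⟩ := e.surjective x
    have key : ∀ y' : Fin 3 → ℂ, y 0 * y' 2 + y' 0 * y 2 - 2 * (y 1 * y' 1) = 0 := by
      intro y'
      have h1 := hx (e y')
      rw [QuadraticMap.polar, ← map_add, hQe, hQe, hQe] at h1
      simp only [Pi.add_apply] at h1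
      linear_combination h1
    have k0 := key (Pi.single 2 1)
    have k1 := key (Pi.single 1 1)
    have k2 := key (Pi.single 0 1)
    simp at k0 k1 k2
    have : y = 0 := by
      funext i
      fin_cases i
      · exact k0
      · exact k1
      · exact k2
    rw [this, map_zero]
  · intro p hp
    obtain ⟨y, hy, hyq⟩ := hrepQ p hp
    simp only [X, Set.mem_ofPred_eq, F]
    rw [← hy]
    have hw : y 0 * y 2 = -(Complex.I * y 1) ^ 2 := by
      rw [hyq, mul_pow, Complex.I_sq]
      ring
    have h14 := psum_14 (y 0) (y 2) (Complex.I * y 1) z hzsum hw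
    simp only [u, Fin.sum_univ_five, Matrix.cons_val] at h14
    have hI : (Complex.I * y 1) ^ 14 = - y 1 ^ 14 := by
      have : (Complex.I * y 1) ^ 14 = (Complex.I ^ 2) ^ 7 * y 1 ^ 14 := by ring
      rw [this, Complex.I_sq]
      ring
    rw [hI] at h14
    simp only [L, LinearMap.coe_mk, AddHom.coe_mk, Matrix.cons_val]
    rw [mul_pow ω, mul_pow ω, hω, mul_pow s, hs14]
    linear_combination h14
  · rintro ⟨i, j, hij, a, b, hab, hall⟩
    apply hab
    -- evaluate at points of the conic
    have hev : ∀ y : Fin 3 → ℂ, y ≠ 0 → y 0 * y 2 = y 1 * y 1 →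
        a * L z ω s y i = b * L z ω s y j := by
      intro y hy0 hyq
      have hne : L z ω s y ≠ 0 := by
        intro h
        exact hy0 (hLinj (by rw [h, map_zero]))
      obtain ⟨c, hc⟩ := Projectivization.exists_smul_eq_mk_rep ℂ _ hne
      have hmem : Projectivization.mk ℂ (L z ω s y) hne ∈ C := by
        have h1 : (Projectivization.mk ℂ (L z ω s y) hne).rep = L z ω s ((c : ℂ) • y) := by
          rw [← hc, map_smul]
          rfl
        refine ⟨⟨(c : ℂ) • y, h1.symm⟩, ?_⟩
        have h2 : (⟨(Projectivization.mk ℂ (L z ω s y) hne).rep, ⟨(c : ℂ) • y, h1.symm⟩⟩ : W) =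
            e ((c : ℂ) • y) := Subtype.ext h1
        rw [h2, hQe]
        simp only [Pi.smul_apply, smul_eq_mul]
        linear_combination (c : ℂ) ^ 2 * hyq
      have h3 := hall _ hmem
      rw [← hc] at h3
      have h4 : (c : ℂ) * (a * L z ω s y i - b * L z ω s y j) = 0 := by
        have h5 : a * ((c : ℂ) * L z ω s y i) - b * ((c : ℂ) * L z ω s y j) = 0 := h3
        linear_combination h5
      rcases mul_eq_zero.mp h4 with h | h
      · exact absurd h c.ne_zero
      · exact sub_eq_zero.mp h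
    have e1 := hev ![1, 0, 0] (fun h => one_ne_zero (congrFun h 0)) (by simp)
    have e2 := hev ![0, 0, 1] (fun h => one_ne_zero (congrFun h 2)) (by simp)
    have e3 := hev ![1, 1, 1] (fun h => one_ne_zero (congrFun h 0)) (by simp)
    set m : Fin 6 → ℂ := ![1, 1, 1, ω, ω, s] with hm
    have hm0 : ∀ k, m k ≠ 0 := by
      intro k
      fin_cases k <;> simp [hm, hω0, hs0]
    have hα : ∀ k : Fin 6, k ≠ 5 → L z ω s ![1, 0, 0] k = m k * z ^ (k : ℕ) := by
      intro k hk
      fin_cases k <;> simp [L, hm] at hk ⊢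
    have hα5 : L z ω s ![1, 0, 0] 5 = 0 := by simp [L]
    have hγ5 : L z ω s ![0, 0, 1] 5 = 0 := by simp [L]
    have hβ5 : L z ω s ![1, 1, 1] 5 = s := by simp [L]
    have hβ : ∀ k : Fin 6, k ≠ 5 → L z ω s ![1, 1, 1] k =
        L z ω s ![1, 0, 0] k + L z ω s ![0, 0, 1] k + Complex.I * m k := by
      intro k hk
      fin_cases k
      all_goals first
        | (simp at hk; done)
        | (simp [L, hm]; try ring)
    by_cases hi : i = 5
    · subst hi
      have hj : j ≠ 5 := fun h => hij h.symm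
      rw [hα5, hα j hj, mul_zero] at e1
      have hb : b = 0 := by
        rcases mul_eq_zero.mp e1.symm with h | h
        · exact h
        · exact absurd h (mul_ne_zero (hm0 j) (pow_ne_zero _ hz0))
      refine ⟨?_, hb⟩
      rw [hβ5, hb, zero_mul] at e3
      rcases mul_eq_zero.mp e3 with h | h
      · exact h
      · exact absurd h hs0
    · by_cases hj : j = 5
      · subst hj
        rw [hα5, hα i hi, mul_zero] at e1
        have ha : a = 0 := by
          rcases mul_eq_zero.mp e1 with h | h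
          · exact h
          · exact absurd h (mul_ne_zero (hm0 i) (pow_ne_zero _ hz0))
        refine ⟨ha, ?_⟩
        rw [hβ5, ha, zero_mul] at e3
        rcases mul_eq_zero.mp e3.symm with h | h
        · exact h
        · exact absurd h hs0
      · rw [hβ i hi, hβ j hj] at e3
        rw [hα i hi, hα j hj] at e1 e3
        have h1 : Complex.I * (a * m i - b * m j) = 0 := by linear_combination e3 - e1 - e2
        have h2 : a * m i = b * m j := by
          rcases mul_eq_zero.mp h1 with h | h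
          · exact absurd h Complex.I_ne_zero
          · exact sub_eq_zero.mp h
        have h3 : (a * m i) * (z ^ (i : ℕ) - z ^ (j : ℕ)) = 0 := by
          linear_combination e1 - z ^ (j : ℕ) * h2
        have h4 : z ^ (i : ℕ) - z ^ (j : ℕ) ≠ 0 := by
          intro h
          apply hij
          have hi5 : (i : ℕ) < 5 := by
            have := i.2
            have h5 : (i : ℕ) ≠ 5 := fun h6 => hi (Fin.ext h6)
            omega
          have hj5 : (j : ℕ) < 5 := by
            have := j.2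
            have h5 : (j : ℕ) ≠ 5 := fun h6 => hj (Fin.ext h6)
            omega
          exact Fin.ext (hprim.pow_inj hi5 hj5 (sub_eq_zero.mp h))
        have h5 : a * m i = 0 := by
          rcases mul_eq_zero.mp h3 with h | h
          · exact h
          · exact absurd h h4
        have h6 : b * m j = 0 := by rw [← h2, h5]
        refine ⟨?_, ?_⟩
        · rcases mul_eq_zero.mp h5 with h | h
          · exact h
          · exact absurd h (hm0 i)
        · rcases mul_eq_zero.mp h6 with h | h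
          · exact h
          · exact absurd h (hm0 j)

/-- The threshold is exactly fifteen: `15` is the least positive integer `D` such that for every
`d ≥ D` every conic contained in `X_d` is degenerate. -/
theorem result :
    IsLeast {D : ℕ | 0 < D ∧ ∀ d : ℕ, D ≤ d → ∀ C : Set P5, IsConic C → C ⊆ X d →
      IsDegenerate C} 15 := by
  refine ⟨⟨by norm_num, fun d hd C hC hCX => upper hd C hC hCX⟩, ?_⟩
  rintro D ⟨-, hD⟩
  by_contra hlt
  push Not at hlt
  obtain ⟨C, hC, hCX, hnd⟩ := lower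
  exact hnd (hD 14 (by omega) C hC hCX)

end Pool.Agent.Results.MP_cd75ba_ag.ConicThreshold
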